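import Mathlib
import Pool.Agent.TSP.Pairs

/-!
# The number of primes `p ≤ x` with `(p + q) q ^ 2 + 1` prime, uniformly in `q ≤ x`
-/

set_option autoImplicit false

open Finset

namespace Pool.Agent.DAQ

open Pool.Agent.TSP Pool.Agent.TSP.Big
open Pool.Agent.Cyclic (pr mem_pr)

lemma exp_cc' {x : ℕ} {L l : ℝ} (h : Big x L l) :
    Real.exp (2 * (9 + 4 * Real.log ((cc l + 1 : ℕ) : ℝ))) ≤ Real.exp 18 * 4 ^ 8 * l ^ 8 := by
  have h0 : (0 : ℝ) < ((cc l + 1 : ℕ) : ℝ) := by positivity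
  have h1 : ((cc l + 1 : ℕ) : ℝ) ≤ 4 * l := by
    unfold cc
    push_cast
    have h2 := Nat.floor_le (show 0 ≤ 2 * l by have := h.lpos; linarith)
    have := h.one
    linarith
  have h2 : Real.exp (2 * (9 + 4 * Real.log ((cc l + 1 : ℕ) : ℝ))) =
      Real.exp 18 * ((cc l + 1 : ℕ) : ℝ) ^ 8 := by
    rw [show 2 * (9 + 4 * Real.log ((cc l + 1 : ℕ) : ℝ)) =
        18 + (8 : ℕ) * Real.log ((cc l + 1 : ℕ) : ℝ) by push_cast; ring,
      Real.exp_add, Real.exp_nat_mul, Real.exp_log h0]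
  rw [h2, mul_assoc, ← mul_pow]
  exact mul_le_mul_of_nonneg_left (pow_le_pow_left₀ h0.le h1 8) (Real.exp_pos _).le

/-- the sieve bound with the chosen parameters, coefficients up to powers of `x` -/
theorem sieve5 : ∃ C : ℝ, 0 < C ∧ ∀ (x : ℕ) (L l : ℝ), Big x L l → ∀ b a Y : ℕ, b ≠ 0 → a ≠ b →
    b * ((a : ℤ) - b).natAbs ≤ 2 * x ^ 5 → ∀ X : ℝ, (Y : ℝ) ≤ X → yy L l ≤ X →
    (((Ioc 0 Y).filter (fun t => ∀ p ∈ pr (zz L l),
      ¬ p ∣ t + 1 ∧ ¬ p ∣ b * t + a)).card : ℝ) ≤ C * X * l ^ 20 / L ^ 2 := by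
  refine ⟨(Real.exp 18 * 4 ^ 8 * 8000) ^ 2 + 1 + Real.exp 4, by positivity, ?_⟩
  intro x L l h b a Y hb hab hbx X hYX hyX
  have hL := h.Lpos
  have hl := h.lpos
  have hX : 0 ≤ X := (Real.exp_pos _).le.trans hyX
  have hN : (b * ((a : ℤ) - b).natAbs).primeFactors.card ≤ 4 * 2 ^ (cc l + 1) := by
    have hN0 : b * ((a : ℤ) - b).natAbs ≠ 0 := by
      refine mul_ne_zero hb ?_
      rw [Int.natAbs_ne_zero, sub_ne_zero]
      exact_mod_cast hab
    have h1 := two_pow_card_le hN0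
    set N := b * ((a : ℤ) - b).natAbs with hNdef
    have h3 : (2 : ℝ) ^ N.primeFactors.card ≤ 2 * (x : ℝ) ^ 5 := by exact_mod_cast h1.trans hbx
    have h4 : (N.primeFactors.card : ℝ) * Real.log 2 ≤ Real.log 2 + 5 * L := by
      have h5 := Real.log_le_log (by positivity) h3
      rw [Real.log_pow, Real.log_mul (by norm_num) (by have := h.x0; positivity), Real.log_pow,
        ← h.hL] at h5
      push_cast at h5
      exact h5
    have h5 := Big.log_two_gt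
    have h6 := h.Lge
    have h5' := Real.log_two_lt_d9
    have h7 : (N.primeFactors.card : ℝ) ≤ 8 * L := by
      by_contra hcon
      push Not at hcon
      have h8 : 8 * L * 0.69 < (N.primeFactors.card : ℝ) * Real.log 2 :=
        mul_lt_mul'' hcon h5 (by positivity) (by norm_num)
      linarith
    have h8 := h.L_le_cc
    have h9 : (N.primeFactors.card : ℝ) ≤ 4 * 2 ^ (cc l + 1) := by
      rw [pow_succ]
      linarith
    exact_mod_cast h9
  have hz : zz L l ≤ 2 ^ bet L := by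
    refine le_trans ?_ h.x_le
    have : (zz L l : ℝ) ≤ x := by
      refine (Big.zz_le L l).trans ?_
      rw [← h.expL]
      apply Real.exp_le_exp.2
      apply div_le_self hL.le
      have := h.one
      nlinarith
    exact_mod_cast this
  have hs := sieve2 b a hb hab (zz L l) (rr l) Y (cc l + 1) (bet L) h.two_le_zz
    (by omega) (Big.bet_one L) hz hN
  refine hs.trans ?_
  have m1 : (Real.exp (2 * (9 + 4 * Real.log ((cc l + 1 : ℕ) : ℝ))) /
      Real.log (zz L l + 1)) ^ 2 ≤ (Real.exp 18 * 4 ^ 8 * 8000) ^ 2 * l ^ 20 / L ^ 2 := by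
    have e1 : Real.exp (2 * (9 + 4 * Real.log ((cc l + 1 : ℕ) : ℝ))) / Real.log (zz L l + 1)
        ≤ (Real.exp 18 * 4 ^ 8 * l ^ 8) / (L / (8000 * l ^ 2)) :=
      div_le_div₀ (by positivity) (exp_cc' h) (by positivity) h.log_zz
    have e0 : 0 ≤ Real.exp (2 * (9 + 4 * Real.log ((cc l + 1 : ℕ) : ℝ))) /
        Real.log (zz L l + 1) := by
      apply div_nonneg (Real.exp_pos _).le
      refine le_trans ?_ h.log_zz
      positivity
    refine (pow_le_pow_left₀ e0 e1 2).trans (le_of_eq ?_)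
    field_simp
  have hl20 : 1 ≤ l ^ 20 := one_le_pow₀ h.one
  have m2 : Real.exp (-(2 * rr l : ℕ)) *
      Real.exp (2 * Real.exp 1 * (5 + 4 * Real.log (bet L))) ≤ l ^ 20 / L ^ 2 :=
    h.second.trans (div_le_div_of_nonneg_right hl20 (by positivity))
  have m3 : (zz L l : ℝ) ^ (2 * rr l) * Real.exp 4 ≤ X * (Real.exp 4 * (l ^ 20 / L ^ 2)) := by
    have e1 := h.third
    have e2 : yy L l / L ^ 2 ≤ X * (l ^ 20 / L ^ 2) := by
      calc yy L l / L ^ 2 ≤ X / L ^ 2 := div_le_div_of_nonneg_right hyX (by positivity)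
        _ = X * (1 / L ^ 2) := by ring
        _ ≤ X * (l ^ 20 / L ^ 2) :=
          mul_le_mul_of_nonneg_left (div_le_div_of_nonneg_right hl20 (by positivity)) hX
    have e3 := e1.trans e2
    calc (zz L l : ℝ) ^ (2 * rr l) * Real.exp 4 ≤ X * (l ^ 20 / L ^ 2) * Real.exp 4 :=
          mul_le_mul_of_nonneg_right e3 (Real.exp_pos _).le
      _ = X * (Real.exp 4 * (l ^ 20 / L ^ 2)) := by ring
  have hY0 : (0 : ℝ) ≤ Y := Nat.cast_nonneg _
  have e4 : (Y : ℝ) * (Real.exp (2 * (9 + 4 * Real.log ((cc l + 1 : ℕ) : ℝ))) /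
      Real.log (zz L l + 1)) ^ 2 ≤ X * ((Real.exp 18 * 4 ^ 8 * 8000) ^ 2 * l ^ 20 / L ^ 2) :=
    mul_le_mul hYX m1 (by positivity) hX
  have e5 : (Y : ℝ) * (Real.exp (-(2 * rr l : ℕ)) *
      Real.exp (2 * Real.exp 1 * (5 + 4 * Real.log (bet L)))) ≤ X * (l ^ 20 / L ^ 2) :=
    mul_le_mul hYX m2 (by positivity) hX
  have e6 : ((Real.exp 18 * 4 ^ 8 * 8000) ^ 2 + 1 + Real.exp 4) * X * l ^ 20 / L ^ 2
      = X * ((Real.exp 18 * 4 ^ 8 * 8000) ^ 2 * l ^ 20 / L ^ 2) + X * (l ^ 20 / L ^ 2)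
        + X * (Real.exp 4 * (l ^ 20 / L ^ 2)) := by ring
  rw [e6]
  linarith

open Classical in
/-- the primes `p` counted for given `q` -/
noncomputable def PQ (x q : ℕ) : Finset ℕ :=
  (Icc 1 x).filter fun p => p.Prime ∧ ((p + q) * q ^ 2 + 1).Prime

/-- the count for large `x` -/
theorem PQ_bound : ∃ C : ℝ, 0 < C ∧ ∀ (x : ℕ) (L l : ℝ), Big x L l → ∀ q : ℕ, 1 ≤ q → q ≤ x →
    ((PQ x q).card : ℝ) ≤ C * x * l ^ 20 / L ^ 2 := by
  classical
  obtain ⟨C, hC0, hC⟩ := sieve5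
  refine ⟨1 + C, by positivity, ?_⟩
  intro x L l hB q hq hqx
  have hL := hB.Lpos
  have hl := hB.lpos
  have hl20 : 1 ≤ l ^ 20 := one_le_pow₀ hB.one
  have hyx : yy L l ≤ x := by
    rw [← hB.expL]
    unfold yy
    apply Real.exp_le_exp.2
    apply div_le_self hL.le
    have := hB.one
    linarith
  have hsplit : (PQ x q).card = ((PQ x q).filter (fun p => p ≤ zz L l)).card +
      ((PQ x q).filter (fun p => ¬ p ≤ zz L l)).card :=
    (Finset.card_filter_add_card_filter_not (s := PQ x q) (fun p => p ≤ zz L l)).symm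
  have h1 : ((PQ x q).filter (fun p => p ≤ zz L l)).card ≤ zz L l := by
    calc ((PQ x q).filter (fun p => p ≤ zz L l)).card ≤ (Icc 1 (zz L l)).card := by
          apply Finset.card_le_card
          intro p hp
          rw [mem_filter, PQ, mem_filter, mem_Icc] at hp
          rw [mem_Icc]
          exact ⟨hp.1.1.1, hp.2⟩
      _ = zz L l := by rw [Nat.card_Icc, Nat.add_sub_cancel]
  have h2 : (zz L l : ℝ) ≤ x * l ^ 20 / L ^ 2 := by
    have e1 : (zz L l : ℝ) ≤ (zz L l : ℝ) ^ (2 * rr l) := by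
      have e2 : (1 : ℝ) ≤ zz L l := by exact_mod_cast (by have := hB.two_le_zz; omega : 1 ≤ zz L l)
      have e3 : 2 * rr l ≠ 0 := by
        have e4 := rr_ge l
        intro h0
        rw [h0] at e4
        push_cast at e4
        linarith
      exact le_self_pow₀ e2 e3
    refine e1.trans (hB.third.trans ?_)
    apply div_le_div_of_nonneg_right _ (by positivity)
    have := hB.x0
    nlinarith
  have hb0 : q ^ 2 ≠ 0 := by positivity
  have hab : q ^ 2 + q ^ 3 + 1 ≠ q ^ 2 := by omega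
  have hNb : q ^ 2 * (((q ^ 2 + q ^ 3 + 1 : ℕ) : ℤ) - (q ^ 2 : ℕ)).natAbs ≤ 2 * x ^ 5 := by
    have e1 : (((q ^ 2 + q ^ 3 + 1 : ℕ) : ℤ) - (q ^ 2 : ℕ)) = ((q ^ 3 + 1 : ℕ) : ℤ) := by
      push_cast
      ring
    rw [e1, Int.natAbs_natCast]
    have e2 : q ^ 5 ≤ x ^ 5 := Nat.pow_le_pow_left hqx 5
    have e3 : q ^ 2 ≤ q ^ 5 := Nat.pow_le_pow_right hq (by norm_num)
    calc q ^ 2 * (q ^ 3 + 1) = q ^ 5 + q ^ 2 := by ring
      _ ≤ 2 * x ^ 5 := by omega
  have h3 := hC x L l hB (q ^ 2) (q ^ 2 + q ^ 3 + 1) x hb0 hab hNb x le_rfl hyx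
  have h4 : ((PQ x q).filter (fun p => ¬ p ≤ zz L l)).card ≤
      ((Ioc 0 x).filter (fun t => ∀ p ∈ pr (zz L l),
        ¬ p ∣ t + 1 ∧ ¬ p ∣ q ^ 2 * t + (q ^ 2 + q ^ 3 + 1))).card := by
    apply Finset.card_le_card_of_injOn (fun P => P - 1)
    · intro P hP
      rw [mem_coe, mem_filter, PQ, mem_filter, mem_Icc] at hP
      obtain ⟨⟨⟨hP1, hP2⟩, hPp, hpr⟩, hPz⟩ := hP
      have hP3 := hPp.two_le
      rw [mem_coe, mem_filter, mem_Ioc]
      refine ⟨show 0 < P - 1 ∧ P - 1 ≤ x from ⟨by omega, by omega⟩, fun p hp => ?_⟩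
      obtain ⟨hpz, hpp⟩ := mem_pr.1 hp
      constructor
      · intro hdvd
        rw [Nat.sub_add_cancel hP1] at hdvd
        have := (Nat.prime_dvd_prime_iff_eq hpp hPp).1 hdvd
        omega
      · intro hdvd
        have e1 : q ^ 2 * (P - 1) + (q ^ 2 + q ^ 3 + 1) = (P + q) * q ^ 2 + 1 := by
          obtain ⟨s, rfl⟩ : ∃ s, P = s + 1 := ⟨P - 1, by omega⟩
          simp only [Nat.add_sub_cancel]
          ring
        rw [e1] at hdvd
        have e2 := (Nat.prime_dvd_prime_iff_eq hpp hpr).1 hdvd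
        have e3 : P ≤ (P + q) * q ^ 2 := by
          calc P ≤ P + q := by omega
            _ ≤ (P + q) * q ^ 2 := Nat.le_mul_of_pos_right _ (by positivity)
        omega
    · intro P hP Q hQ hPQ
      rw [mem_coe, mem_filter, PQ, mem_filter, mem_Icc] at hP hQ
      simp only at hPQ
      omega
  have h5 : ((PQ x q).card : ℝ) ≤ (zz L l : ℝ) +
      (((Ioc 0 x).filter (fun t => ∀ p ∈ pr (zz L l),
        ¬ p ∣ t + 1 ∧ ¬ p ∣ q ^ 2 * t + (q ^ 2 + q ^ 3 + 1))).card : ℝ) := by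
    rw [hsplit]
    push_cast
    have e1 : (((PQ x q).filter (fun p => p ≤ zz L l)).card : ℝ) ≤ zz L l := by exact_mod_cast h1
    have e2 : (((PQ x q).filter (fun p => ¬ p ≤ zz L l)).card : ℝ) ≤
      (((Ioc 0 x).filter (fun t => ∀ p ∈ pr (zz L l),
        ¬ p ∣ t + 1 ∧ ¬ p ∣ q ^ 2 * t + (q ^ 2 + q ^ 3 + 1))).card : ℝ) := by exact_mod_cast h4
    linarith
  have e6 : (1 + C) * (x : ℝ) * l ^ 20 / L ^ 2 = x * l ^ 20 / L ^ 2 + C * x * l ^ 20 / L ^ 2 := by
    ring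
  rw [e6]
  linarith

/-- the count for all `x ≥ 16` -/
theorem PQ_bound' : ∃ C : ℝ, 0 < C ∧ ∀ x q : ℕ, 16 ≤ x → 1 ≤ q → q ≤ x →
    ((PQ x q).card : ℝ) ≤ C * x * Real.log (Real.log x) ^ 20 / Real.log x ^ 2 := by
  obtain ⟨C, hC0, hC⟩ := PQ_bound
  obtain ⟨L0, hL0, hbig⟩ := exists_big
  refine ⟨C + L0 ^ 2, by positivity, ?_⟩
  intro x q hx hq hqx
  obtain ⟨h1, h2⟩ := log_log_ge hx
  have hx0 : (0 : ℝ) ≤ x := Nat.cast_nonneg _
  have h20 : 1 ≤ Real.log (Real.log x) ^ 20 := one_le_pow₀ h2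
  have hlog : 0 < Real.log x := by linarith
  have e1 : (C + L0 ^ 2) * x * Real.log (Real.log x) ^ 20 / Real.log x ^ 2 =
      C * x * Real.log (Real.log x) ^ 20 / Real.log x ^ 2
      + L0 ^ 2 * x * Real.log (Real.log x) ^ 20 / Real.log x ^ 2 := by ring
  rw [e1]
  by_cases hcase : L0 ≤ Real.log x
  · have h3 := hC x _ _ (hbig x hcase) q hq hqx
    have h4 : 0 ≤ L0 ^ 2 * x * Real.log (Real.log x) ^ 20 / Real.log x ^ 2 := by positivity
    linarith
  · push Not at hcase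
    have h3 : ((PQ x q).card : ℝ) ≤ x := by
      have : (PQ x q).card ≤ x := by
        refine (Finset.card_filter_le _ _).trans ?_
        rw [Nat.card_Icc, Nat.add_sub_cancel]
      exact_mod_cast this
    have h4 : (x : ℝ) ≤ L0 ^ 2 * x * Real.log (Real.log x) ^ 20 / Real.log x ^ 2 := by
      rw [le_div_iff₀ (by positivity)]
      have e2 : Real.log x ^ 2 ≤ L0 ^ 2 := pow_le_pow_left₀ hlog.le hcase.le 2
      calc (x : ℝ) * Real.log x ^ 2 ≤ x * L0 ^ 2 := mul_le_mul_of_nonneg_left e2 hx0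
        _ = L0 ^ 2 * x * 1 := by ring
        _ ≤ L0 ^ 2 * x * Real.log (Real.log x) ^ 20 :=
          mul_le_mul_of_nonneg_left h20 (by positivity)
    have h5 : 0 ≤ C * x * Real.log (Real.log x) ^ 20 / Real.log x ^ 2 := by positivity
    linarith

end Pool.Agent.DAQ
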