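import Mathlib
import Pool.Agent.DAQ.Sieve
import Pool.Agent.TSU.P_SVP
import Pool.Agent.TSU.P_SV3
import Pool.Agent.TSU.P_RHO3
import Pool.Agent.TSU.P_REG

/-!
# The number of `m ≤ x` with `φ(k m) - 1` and `φ(k m) + 1` prime, uniformly in `k ≤ x`
-/

set_option autoImplicit false

open Finset

namespace Pool.Agent.DAQ

open Pool.Agent.TSP (Per rho two_pow_card_le smooth_count Big log_log_ge)
open Pool.Agent.TSP.Big (bet zz yy rr rr_ge)
open Pool.Agent.TSU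
open Pool.Agent.Cyclic (pr mem_pr sum_upto pr_mono harmonic_eq_sum_Icc_real)

lemma cnt_mono {S : Finset ℕ} {P Q : ℕ → Prop} (h : ∀ t ∈ S, P t → Q t) : cnt S P ≤ cnt S Q := by
  classical
  unfold cnt
  have h1 : (S.filter P).card ≤ (S.filter Q).card := by
    apply Finset.card_le_card
    intro t ht
    rw [mem_filter] at ht ⊢
    exact ⟨ht.1, h t ht.1 ht.2⟩
  exact_mod_cast h1

/-- the sieve for the forms `t + 1`, `c t + 1`, `c t - 1` -/
theorem sieve_twin : ∃ C : ℝ, 0 < C ∧ ∀ (x : ℕ) (L l : ℝ), Reg x L l → ∀ c T : ℕ, 2 ≤ c →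
    c ≤ x ^ 2 → yv L l / 2 ≤ T →
    cnt (Ioc 0 T) (fun t => ∀ p : ℕ, p.Prime → (p : ℝ) ≤ z3 L l →
      ¬ (p : ℤ) ∣ (t : ℤ) + 1 ∧ ¬ (p : ℤ) ∣ (c : ℤ) * t + 1 ∧ ¬ (p : ℤ) ∣ (c : ℤ) * t - 1) ≤
      C * T * l ^ 39 / L ^ 3 := by
  obtain ⟨C, hC0, hC⟩ := p_SVP p_SV3
  refine ⟨C, hC0, ?_⟩
  intro x L l hr c T hc hcx hT
  obtain ⟨d, rfl⟩ : ∃ d, c = d + 2 := ⟨c - 2, by omega⟩
  obtain ⟨hper, hrho⟩ := p_RHO3 1 1 ((d + 2 : ℕ) : ℤ) 1 ((d + 2 : ℕ) : ℤ) (-1)
  set N : ℕ := 2 * ((d + 2) ^ 3 * ((d + 1) * (d + 3))) with hN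
  have hN0 : N ≠ 0 := by
    rw [hN]
    positivity
  have h2N : 2 ∣ N := ⟨_, rfl⟩
  have hx2 : 2 ≤ x := by
    by_contra h
    have h1 : x = 0 ∨ x = 1 := by omega
    have h2 := hr.Lge
    rw [hr.hL] at h2
    rcases h1 with h1 | h1 <;> rw [h1] at h2 <;> norm_num at h2
  have hNx : N ≤ x ^ 40 := by
    have e1 : (d + 1) * (d + 3) ≤ (d + 2) ^ 2 := by nlinarith
    have e2 : N ≤ 2 * (d + 2) ^ 5 := by
      calc N ≤ 2 * ((d + 2) ^ 3 * (d + 2) ^ 2) := by
            rw [hN]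
            exact Nat.mul_le_mul_left _ (Nat.mul_le_mul_left _ e1)
        _ = 2 * (d + 2) ^ 5 := by ring
    have e3 : (d + 2) ^ 5 ≤ (x ^ 2) ^ 5 := Nat.pow_le_pow_left hcx 5
    calc N ≤ 2 * (d + 2) ^ 5 := e2
      _ ≤ x * (x ^ 2) ^ 5 := Nat.mul_le_mul hx2 e3
      _ = x ^ 11 := by ring
      _ ≤ x ^ 40 := Nat.pow_le_pow_right (by omega) (by norm_num)
  have hrho' : ∀ p : ℕ, p.Prime → ¬ p ∣ N →
      rho (Bad3 1 1 ((d + 2 : ℕ) : ℤ) 1 ((d + 2 : ℕ) : ℤ) (-1)) p = 3 := by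
    intro p hp hpN
    apply hrho p hp
    intro h
    apply hpN
    have e1 : (1 : ℤ) * ((d + 2 : ℕ) : ℤ) * ((d + 2 : ℕ) : ℤ) * (1 * 1 - ((d + 2 : ℕ) : ℤ) * 1) *
        (1 * (-1) - ((d + 2 : ℕ) : ℤ) * 1) *
        (((d + 2 : ℕ) : ℤ) * (-1) - ((d + 2 : ℕ) : ℤ) * 1) = -((N : ℕ) : ℤ) := by
      rw [hN]
      push_cast
      ring
    rw [e1, Int.dvd_neg] at h
    exact_mod_cast h
  refine le_trans (cnt_mono ?_) (hC x L l hr _ hper N T hN0 h2N hNx hT hrho')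
  intro t _ ht p hp hpz _ hbad
  obtain ⟨a1, a2, a3⟩ := ht p hp hpz
  rcases hbad with h | h | h
  · rw [one_mul] at h
    exact a1 h
  · exact a2 h
  · exact a3 h

open Classical in
/-- the numbers `m ≤ x` counted for given `k` -/
noncomputable def TW (x k : ℕ) : Finset ℕ :=
  (Icc 1 x).filter fun m => (Nat.totient (k * m) - 1).Prime ∧ (Nat.totient (k * m) + 1).Prime

open Classical in
/-- the primes `P` for given `u` -/
noncomputable def RW (x y k u : ℕ) : Finset ℕ :=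
  (Icc 1 (x / u)).filter fun P => P.Prime ∧ y < P ∧ (Nat.totient (k * (P * u)) - 1).Prime ∧
    (Nat.totient (k * (P * u)) + 1).Prime

open Classical in
lemma card_TW_le (x y k : ℕ) : (TW x k).card ≤
    ((TW x k).filter fun m => ∀ p, p.Prime → p ∣ m → p ≤ y).card
      + ∑ u ∈ Icc 1 (x / (y + 1)), (RW x y k u).card := by
  rw [← Finset.card_filter_add_card_filter_not (s := TW x k)
    (fun m => ∀ p, p.Prime → p ∣ m → p ≤ y)]
  apply add_le_add le_rfl
  have hsub : (TW x k).filter (fun m => ¬ ∀ p, p.Prime → p ∣ m → p ≤ y) ⊆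
      (Icc 1 (x / (y + 1))).biUnion fun u => (RW x y k u).image fun P => P * u := by
    intro m hm
    rw [mem_filter, TW, mem_filter, mem_Icc] at hm
    obtain ⟨⟨⟨hm1, hmx⟩, hpr⟩, hns⟩ := hm
    push Not at hns
    obtain ⟨p, hp, ⟨u, rfl⟩, hpy⟩ := hns
    rw [mem_biUnion]
    have hu : 0 < u := Nat.pos_of_ne_zero fun h0 => by rw [h0, mul_zero] at hm1; omega
    refine ⟨u, ?_, ?_⟩
    · rw [mem_Icc]
      refine ⟨hu, ?_⟩
      rw [Nat.le_div_iff_mul_le (by omega)]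
      calc u * (y + 1) ≤ u * p := Nat.mul_le_mul_left u hpy
        _ = p * u := mul_comm _ _
        _ ≤ x := hmx
    · rw [mem_image]
      refine ⟨p, ?_, rfl⟩
      rw [RW, mem_filter, mem_Icc]
      refine ⟨⟨hp.one_lt.le, ?_⟩, hp, hpy, hpr⟩
      rw [Nat.le_div_iff_mul_le hu]
      exact hmx
  refine (Finset.card_le_card hsub).trans (Finset.card_biUnion_le.trans ?_)
  exact Finset.sum_le_sum fun u _ => Finset.card_image_le

lemma tot_eq' {P k u : ℕ} (hP : P.Prime) (hd : ¬ P ∣ k * u) :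
    Nat.totient (k * (P * u)) = Nat.totient (k * u) * (P - 1) := by
  have hcop : Nat.Coprime (k * u) P := ((Nat.Prime.coprime_iff_not_dvd hP).2 hd).symm
  rw [show k * (P * u) = k * u * P by ring, Nat.totient_mul hcop, Nat.totient_prime hP]

lemma z3_lt_yv {x : ℕ} {L l : ℝ} (h : Reg x L l) : z3 L l ≤ yv L l := by
  unfold z3 yv
  apply Real.exp_le_exp.2
  have hl := h.lpos
  have hL := h.Lpos
  apply div_le_div_of_nonneg_left hL.le (by positivity)
  have h1 := h.one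
  have h4 : 0 < l ^ 4 := by positivity
  calc l ^ 4 = 1 * l ^ 4 := by ring
    _ ≤ (250 * l) * l ^ 4 := mul_le_mul_of_nonneg_right (by linarith) h4.le
    _ = 250 * l ^ 5 := by ring

open Classical in
/-- the bound for given `u`, `k u ≥ 3` -/
lemma card_RW (C : ℝ) (hC0 : 0 < C) (hC : ∀ (x : ℕ) (L l : ℝ), Reg x L l → ∀ c T : ℕ, 2 ≤ c →
    c ≤ x ^ 2 → yv L l / 2 ≤ T →
    cnt (Ioc 0 T) (fun t => ∀ p : ℕ, p.Prime → (p : ℝ) ≤ z3 L l →
      ¬ (p : ℤ) ∣ (t : ℤ) + 1 ∧ ¬ (p : ℤ) ∣ (c : ℤ) * t + 1 ∧ ¬ (p : ℤ) ∣ (c : ℤ) * t - 1) ≤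
      C * T * l ^ 39 / L ^ 3)
    (x : ℕ) (L l : ℝ) (hr : Reg x L l) (k u : ℕ) (hk1 : 1 ≤ k) (hk : k ≤ x) (hu1 : 1 ≤ u)
    (hku : 3 ≤ k * u) (hux : u * (⌊yv L l⌋₊ + 1) ≤ x) :
    ((RW x ⌊yv L l⌋₊ k u).card : ℝ) ≤ (k * u).primeFactors.card + C * (x / u) * l ^ 39 / L ^ 3 := by
  set y := ⌊yv L l⌋₊ with hy
  set c := Nat.totient (k * u) with hc
  have hu0 : (0 : ℝ) < u := by exact_mod_cast hu1
  have hL := hr.Lpos
  have hl := hr.lpos
  have hyv : yv L l < (y : ℝ) + 1 := Nat.lt_floor_add_one _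
  have hyv0 : 0 < yv L l := Real.exp_pos _
  have hy3 : (3 : ℝ) ≤ yv L l := by
    have h1 := hr.pow_le_yv (m := 1) (by norm_num)
    have h2 := hr.Lge
    rw [pow_one] at h1
    unfold yv
    linarith
  have hc2 : 2 ≤ c := by
    have h1 := Nat.totient_pos.2 (show 0 < k * u by omega)
    obtain ⟨e, he⟩ : 2 ∣ Nat.totient (k * u) := (Nat.totient_even (by omega)).two_dvd
    omega
  have hux' : u ≤ x := by
    have h3 : u ≤ u * (y + 1) := Nat.le_mul_of_pos_right u (by omega)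
    omega
  have hcx : c ≤ x ^ 2 := by
    calc c ≤ k * u := Nat.totient_le _
      _ ≤ x * x := Nat.mul_le_mul hk hux'
      _ = x ^ 2 := by ring
  have hT1 : y + 1 ≤ x / u := by
    rw [Nat.le_div_iff_mul_le hu1]
    calc (y + 1) * u = u * (y + 1) := by ring
      _ ≤ x := hux
  have hT : yv L l / 2 ≤ ((x / u : ℕ) : ℝ) := by
    have h1 : ((y + 1 : ℕ) : ℝ) ≤ ((x / u : ℕ) : ℝ) := by exact_mod_cast hT1
    push_cast at h1
    linarith
  set R' := (RW x y k u).filter (fun P => ¬ P ∣ k * u) with hR'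
  have hsplit : (RW x y k u).card ≤ (k * u).primeFactors.card + R'.card := by
    rw [← Finset.card_filter_add_card_filter_not (s := RW x y k u) (fun P => P ∣ k * u)]
    apply add_le_add _ le_rfl
    apply Finset.card_le_card
    intro P hP
    rw [mem_filter, RW, mem_filter] at hP
    rw [Nat.mem_primeFactors]
    exact ⟨hP.1.2.1, hP.2, by omega⟩
  have hmain : (R'.card : ℝ) ≤ C * (x / u) * l ^ 39 / L ^ 3 := by
    have h0 := hC x L l hr c (x / u) hc2 hcx hT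
    have h1 : (R'.card : ℝ) ≤ cnt (Ioc 0 (x / u)) (fun t => ∀ p : ℕ, p.Prime → (p : ℝ) ≤ z3 L l →
      ¬ (p : ℤ) ∣ (t : ℤ) + 1 ∧ ¬ (p : ℤ) ∣ (c : ℤ) * t + 1 ∧ ¬ (p : ℤ) ∣ (c : ℤ) * t - 1) := by
      unfold cnt
      have hinj : R'.card ≤ ((Ioc 0 (x / u)).filter (fun t : ℕ => ∀ p : ℕ, p.Prime →
          (p : ℝ) ≤ z3 L l → ¬ (p : ℤ) ∣ (t : ℤ) + 1 ∧ ¬ (p : ℤ) ∣ (c : ℤ) * t + 1 ∧
          ¬ (p : ℤ) ∣ (c : ℤ) * t - 1)).card := by
        apply Finset.card_le_card_of_injOn (fun P => P - 1)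
        · intro P hP
          rw [mem_coe, hR', mem_filter, RW, mem_filter, mem_Icc] at hP
          obtain ⟨⟨⟨hP1, hP2⟩, hPp, hPy, hq1, hq2⟩, hd⟩ := hP
          rw [tot_eq' hPp hd, ← hc] at hq1 hq2
          have hP3 : 3 ≤ P := by
            have h2 : (3 : ℝ) < (y : ℝ) + 1 := by linarith
            have h3 : 3 < y + 1 := by exact_mod_cast h2
            omega
          obtain ⟨t, rfl⟩ : ∃ t, P = t + 1 := ⟨P - 1, by omega⟩
          rw [Nat.add_sub_cancel] at hq1 hq2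
          have hzP : z3 L l < ((t + 1 : ℕ) : ℝ) := by
            have h2 : y + 1 ≤ t + 1 := hPy
            have h3 : ((y + 1 : ℕ) : ℝ) ≤ ((t + 1 : ℕ) : ℝ) := by exact_mod_cast h2
            push_cast at h3 ⊢
            have h4 := z3_lt_yv hr
            linarith
          have hct : 2 * t ≤ c * t := Nat.mul_le_mul_right t hc2
          rw [mem_coe, mem_filter, mem_Ioc]
          refine ⟨⟨?_, ?_⟩, fun p hp hpz => ?_⟩
          · show 0 < t + 1 - 1
            omega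
          · show t + 1 - 1 ≤ x / u
            omega
          have hpt : p < t + 1 := by
            have h2 : (p : ℝ) < ((t + 1 : ℕ) : ℝ) := lt_of_le_of_lt hpz hzP
            exact_mod_cast h2
          show ¬ (p : ℤ) ∣ ((t + 1 - 1 : ℕ) : ℤ) + 1 ∧ ¬ (p : ℤ) ∣ (c : ℤ) * ((t + 1 - 1 : ℕ) : ℤ) + 1 ∧
            ¬ (p : ℤ) ∣ (c : ℤ) * ((t + 1 - 1 : ℕ) : ℤ) - 1
          rw [Nat.add_sub_cancel]
          refine ⟨?_, ?_, ?_⟩
          · intro hdvd
            have h2 : p ∣ t + 1 := by exact_mod_cast hdvd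
            have := (Nat.prime_dvd_prime_iff_eq hp hPp).1 h2
            omega
          · intro hdvd
            have h2 : p ∣ c * t + 1 := by exact_mod_cast hdvd
            have := (Nat.prime_dvd_prime_iff_eq hp hq2).1 h2
            omega
          · intro hdvd
            have h3 : ((c * t - 1 : ℕ) : ℤ) = (c : ℤ) * t - 1 := by
              rw [Nat.cast_sub (by omega)]
              push_cast
              ring
            rw [← h3] at hdvd
            have h2 : p ∣ c * t - 1 := by exact_mod_cast hdvd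
            have := (Nat.prime_dvd_prime_iff_eq hp hq1).1 h2
            omega
        · intro P hP Q hQ hPQ
          rw [mem_coe, hR', mem_filter, RW, mem_filter, mem_Icc] at hP hQ
          simp only at hPQ
          omega
      have h5 : ((Ioc 0 (x / u)).filter (fun t : ℕ => ∀ p : ℕ, p.Prime →
          (p : ℝ) ≤ z3 L l → ¬ (p : ℤ) ∣ (t : ℤ) + 1 ∧ ¬ (p : ℤ) ∣ (c : ℤ) * t + 1 ∧
          ¬ (p : ℤ) ∣ (c : ℤ) * t - 1)).card = ((Ioc 0 (x / u)).filter (fun t : ℕ => ∀ p : ℕ, p.Prime →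
          (p : ℝ) ≤ z3 L l → ¬ (p : ℤ) ∣ (t : ℤ) + 1 ∧ ¬ (p : ℤ) ∣ (c : ℤ) * t + 1 ∧
          ¬ (p : ℤ) ∣ (c : ℤ) * t - 1)).card := rfl
      exact_mod_cast hinj
    refine h1.trans (h0.trans ?_)
    have h6 : ((x / u : ℕ) : ℝ) ≤ (x : ℝ) / u := Nat.cast_div_le
    have h7 : 0 < L ^ 3 := by positivity
    apply div_le_div_of_nonneg_right _ h7.le
    gcongr
  have h1 : ((RW x y k u).card : ℝ) ≤ (k * u).primeFactors.card + R'.card := by
    exact_mod_cast hsplit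
  linarith

open Classical in
/-- the bound for `k u ≤ 2`: twin primes -/
lemma card_RW2 : ∃ C : ℝ, 0 < C ∧ ∀ (x : ℕ) (L l : ℝ), Reg x L l → ∀ y k u : ℕ, 1 ≤ k → 1 ≤ u →
    k * u ≤ 2 → 2 ≤ y → ((RW x y k u).card : ℝ) ≤ C * x * l ^ 20 / L ^ 2 := by
  obtain ⟨C, hC0, hC⟩ := Pool.Agent.TSP.sieve2'
  refine ⟨3 + C, by positivity, ?_⟩
  intro x L l hr y k u hk hu hku hy
  have hB := hr.toBig
  have hL := hB.Lpos
  have hl := hB.lpos
  have hl20 : 1 ≤ l ^ 20 := one_le_pow₀ hB.one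
  have hyx : yy L l ≤ x := by
    rw [← hB.expL]
    unfold yy
    apply Real.exp_le_exp.2
    apply div_le_self hL.le
    have := hB.one
    linarith
  have hx3 : 3 ≤ 2 * x := by
    have h1 := hB.two_L_sq
    have h2 := hB.Lge
    have h3 : (3 : ℝ) ≤ x := by nlinarith
    have h4 : 3 ≤ x := by exact_mod_cast h3
    omega
  have hx1 : 1 ≤ x := by omega
  -- all of them are twin primes
  have hmem : ∀ P ∈ RW x y k u, P ≤ x ∧ P.Prime ∧ 3 ≤ P ∧ (P - 2).Prime := by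
    intro P hP
    rw [RW, mem_filter, mem_Icc] at hP
    obtain ⟨⟨hP1, hP2⟩, hPp, hPy, hq1, hq2⟩ := hP
    have hd : ¬ P ∣ k * u := by
      intro h
      have h1 := Nat.le_of_dvd (by positivity) h
      omega
    rw [tot_eq' hPp hd] at hq1
    have h2 : Nat.totient (k * u) = 1 := by
      have h3 : 1 ≤ k * u := Nat.mul_pos hk hu
      have h4 : k * u = 1 ∨ k * u = 2 := by omega
      rcases h4 with h4 | h4 <;> rw [h4]
      · exact Nat.totient_one
      · exact Nat.totient_two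
    rw [h2, one_mul] at hq1
    refine ⟨hP2.trans (Nat.div_le_self _ _), hPp, by omega, ?_⟩
    have h5 : P - 2 = P - 1 - 1 := by omega
    rw [h5]
    exact hq1
  have hsplit : (RW x y k u).card = ((RW x y k u).filter (fun p => p ≤ zz L l + 2)).card +
      ((RW x y k u).filter (fun p => ¬ p ≤ zz L l + 2)).card :=
    (Finset.card_filter_add_card_filter_not (s := RW x y k u) (fun p => p ≤ zz L l + 2)).symm
  have h1 : ((RW x y k u).filter (fun p => p ≤ zz L l + 2)).card ≤ zz L l + 2 := by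
    calc ((RW x y k u).filter (fun p => p ≤ zz L l + 2)).card ≤ (Icc 1 (zz L l + 2)).card := by
          apply Finset.card_le_card
          intro p hp
          rw [mem_filter] at hp
          rw [mem_Icc]
          exact ⟨(hmem p hp.1).2.1.one_lt.le, hp.2⟩
      _ = zz L l + 2 := by rw [Nat.card_Icc, Nat.add_sub_cancel]
  have h2 : (zz L l : ℝ) + 2 ≤ 3 * x * l ^ 20 / L ^ 2 := by
    have e1 : (zz L l : ℝ) ≤ (zz L l : ℝ) ^ (2 * rr l) := by
      have e2 : (1 : ℝ) ≤ zz L l := by exact_mod_cast (by have := hB.two_le_zz; omega : 1 ≤ zz L l)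
      have e3 : 2 * rr l ≠ 0 := by
        have e4 := rr_ge l
        intro h0
        rw [h0] at e4
        push_cast at e4
        linarith
      exact le_self_pow₀ e2 e3
    have e2 : (2 : ℝ) ≤ zz L l := by exact_mod_cast hB.two_le_zz
    have e5 := e1.trans hB.third
    have e6 : yy L l / L ^ 2 ≤ x * l ^ 20 / L ^ 2 := by
      apply div_le_div_of_nonneg_right _ (by positivity)
      have := hB.x0
      nlinarith
    have e7 : 3 * (x : ℝ) * l ^ 20 / L ^ 2 = 3 * (x * l ^ 20 / L ^ 2) := by ring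
    rw [e7]
    linarith
  have h3 := hC x L l hB 1 3 x (by norm_num) (by norm_num) hx1 hx3 x le_rfl hyx
  have h4 : ((RW x y k u).filter (fun p => ¬ p ≤ zz L l + 2)).card ≤
      ((Ioc 0 x).filter (fun t => ∀ p ∈ pr (zz L l), ¬ p ∣ t + 1 ∧ ¬ p ∣ 1 * t + 3)).card := by
    apply Finset.card_le_card_of_injOn (fun P => P - 3)
    · intro P hP
      rw [mem_coe, mem_filter] at hP
      obtain ⟨hPm, hPz⟩ := hP
      obtain ⟨hPx, hPp, hP3, hq⟩ := hmem P hPm
      obtain ⟨t, rfl⟩ : ∃ t, P = t + 3 := ⟨P - 3, by omega⟩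
      have e0 : t + 3 - 2 = t + 1 := by omega
      rw [e0] at hq
      have hz2 := hB.two_le_zz
      rw [mem_coe, mem_filter, mem_Ioc]
      refine ⟨⟨?_, ?_⟩, fun p hp => ?_⟩
      · show 0 < t + 3 - 3
        omega
      · show t + 3 - 3 ≤ x
        omega
      obtain ⟨hpz, hpp⟩ := mem_pr.1 hp
      show ¬ p ∣ t + 3 - 3 + 1 ∧ ¬ p ∣ 1 * (t + 3 - 3) + 3
      rw [Nat.add_sub_cancel, one_mul]
      constructor
      · intro hdvd
        have := (Nat.prime_dvd_prime_iff_eq hpp hq).1 hdvd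
        omega
      · intro hdvd
        have := (Nat.prime_dvd_prime_iff_eq hpp hPp).1 hdvd
        omega
    · intro P hP Q hQ hPQ
      rw [mem_coe, mem_filter] at hP hQ
      have e1 := (hmem P hP.1).2.2.1
      have e2 := (hmem Q hQ.1).2.2.1
      simp only at hPQ
      omega
  have h5 : ((RW x y k u).card : ℝ) ≤ ((zz L l : ℝ) + 2) +
      (((Ioc 0 x).filter (fun t => ∀ p ∈ pr (zz L l),
        ¬ p ∣ t + 1 ∧ ¬ p ∣ 1 * t + 3)).card : ℝ) := by
    rw [hsplit]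
    push_cast
    have e1 : (((RW x y k u).filter (fun p => p ≤ zz L l + 2)).card : ℝ) ≤ (zz L l : ℝ) + 2 := by
      exact_mod_cast h1
    have e2 : (((RW x y k u).filter (fun p => ¬ p ≤ zz L l + 2)).card : ℝ) ≤
      (((Ioc 0 x).filter (fun t => ∀ p ∈ pr (zz L l),
        ¬ p ∣ t + 1 ∧ ¬ p ∣ 1 * t + 3)).card : ℝ) := by exact_mod_cast h4
    linarith
  have e6 : (3 + C) * (x : ℝ) * l ^ 20 / L ^ 2 =
      3 * x * l ^ 20 / L ^ 2 + C * x * l ^ 20 / L ^ 2 := by ring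
  rw [e6]
  linarith

end Pool.Agent.DAQ
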