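import Mathlib
import Pool.Agent.DAQ.Twin

/-!
# The number of `m ≤ x` with `φ(k m) - 1` and `φ(k m) + 1` prime: the bound
-/

set_option autoImplicit false

open Finset

namespace Pool.Agent.DAQ

open Pool.Agent.TSP (Per rho two_pow_card_le smooth_count Big log_log_ge)
open Pool.Agent.TSP.Big (bet zz yy rr rr_ge)
open Pool.Agent.TSU
open Pool.Agent.Cyclic (pr mem_pr sum_upto pr_mono harmonic_eq_sum_Icc_real)

open Classical in
/-- the count for large `x` -/
theorem TW_bound : ∃ C : ℝ, 0 < C ∧ ∀ (x : ℕ) (L l : ℝ), Reg x L l → ∀ k : ℕ, 1 ≤ k → k ≤ x →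
    ((TW x k).card : ℝ) ≤ C * x * l ^ 39 / L ^ 2 := by
  obtain ⟨C, hC0, hC⟩ := sieve_twin
  obtain ⟨C2, hC20, hC2⟩ := card_RW2
  refine ⟨2 + 2 * C2 + 2 * C, by positivity, ?_⟩
  intro x L l hr k hk1 hk
  have hB := hr.toBig
  have hL := hr.Lpos
  have hl := hr.lpos
  have hx0 := hr.n0
  have hl39 : 1 ≤ l ^ 39 := one_le_pow₀ hr.one
  have hl2039 : l ^ 20 ≤ l ^ 39 := pow_le_pow_right₀ hr.one (by norm_num)
  have hl5 : 5 ≤ l := by
    by_contra h
    push Not at h
    have h1 : Real.exp l < Real.exp 5 := Real.exp_lt_exp.2 h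
    rw [hr.expl] at h1
    have h2 : Real.exp 5 ≤ 243 := by
      have h3 : Real.exp 5 = Real.exp 1 ^ 5 := by
        rw [← Real.exp_nat_mul]
        norm_num
      have h4 := Real.exp_one_lt_d9
      have h5 : Real.exp 1 ≤ 3 := by linarith
      rw [h3]
      calc Real.exp 1 ^ 5 ≤ 3 ^ 5 := pow_le_pow_left₀ (Real.exp_pos 1).le h5 5
        _ = 243 := by norm_num
    have h3 := hr.Lge
    norm_num at h3
    linarith
  set y := ⌊yv L l⌋₊ with hy
  have hyv0 : 0 < yv L l := Real.exp_pos _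
  have hyle : (y : ℝ) ≤ yv L l := Nat.floor_le hyv0.le
  have hylt : yv L l < (y : ℝ) + 1 := Nat.lt_floor_add_one _
  have hyx : yv L l ≤ x := by
    rw [← hr.expL]
    unfold yv
    apply Real.exp_le_exp.2
    exact div_le_self hL.le (one_le_pow₀ hr.one)
  have hL4 : L ^ 4 ≤ yv L l := hr.pow_le_yv (by norm_num)
  have hL1 : L ≤ yv L l := by
    have := hr.pow_le_yv (m := 1) (by norm_num)
    rwa [pow_one] at this
  have hy2 : 2 ≤ y := by
    apply Nat.le_floor
    push_cast
    have := hr.Lge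
    norm_num at this
    linarith
  have h1 := card_TW_le x y k
  -- the smooth numbers
  have h2 : (((TW x k).filter fun m => ∀ p, p.Prime → p ∣ m → p ≤ y).card : ℝ) ≤ x / L ^ 2 := by
    have hl4 : l ^ 4 / L ≤ 1 / 2 := by
      rw [div_le_iff₀ hL]
      have h3 := hr.pow_le (k := 4) (by norm_num)
      have h4 : 0 ≤ l ^ 4 := by positivity
      linarith
    have hlogy : l ^ 4 / L * Real.log y ≤ 1 := by
      have h3 : Real.log y ≤ L / l ^ 4 := by
        have hy0 : (0 : ℝ) < y := by exact_mod_cast (by omega : 0 < y)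
        rw [Real.log_le_iff_le_exp hy0]
        exact hyle
      calc l ^ 4 / L * Real.log y ≤ l ^ 4 / L * (L / l ^ 4) :=
            mul_le_mul_of_nonneg_left h3 (by positivity)
        _ = 1 := by field_simp
    have hyb : y ≤ 2 ^ bet L := by
      refine le_trans ?_ hB.x_le
      have : (y : ℝ) ≤ x := hyle.trans hyx
      exact_mod_cast this
    refine le_trans (smooth_count x y (bet L) (δ := l ^ 4 / L) (by positivity) hl4 hlogy
      (Pool.Agent.TSP.Big.bet_one L) hyb _ ?_) ?_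
    · intro n hn
      rw [mem_filter, TW, mem_filter, mem_Icc] at hn
      exact ⟨hn.1.1.1, hn.1.1.2, hn.2⟩
    · have e1 : (x : ℝ) ^ (1 - l ^ 4 / L) = Real.exp (L - l ^ 4) := by
        rw [Real.rpow_def_of_pos hx0, ← hr.hL]
        congr 1
        field_simp
      have e2 : (x : ℝ) / L ^ 2 = Real.exp (L - 2 * l) := by
        rw [Real.exp_sub, hr.expL, show (2 : ℝ) * l = ((2 : ℕ) : ℝ) * l by norm_num,
          Real.exp_nat_mul, hr.expl]
      rw [e1, e2, ← Real.exp_add]
      apply Real.exp_le_exp.2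
      have h3 := hB.log_bet
      have h4 := Pool.Agent.TSP.Big.e_lt
      have h6 : 4 * Real.exp 1 * (5 + 4 * Real.log (bet L)) ≤ 4 * 2.7183 * (5 + 4 * (l + 1.1)) := by
        have h7 : 5 + 4 * Real.log (bet L) ≤ 5 + 4 * (l + 1.1) := by linarith
        have h8 : 0 < Real.exp 1 := Real.exp_pos 1
        have h9 : 0 ≤ 5 + 4 * (l + 1.1) := by linarith
        calc 4 * Real.exp 1 * (5 + 4 * Real.log (bet L)) ≤ 4 * Real.exp 1 * (5 + 4 * (l + 1.1)) :=
              mul_le_mul_of_nonneg_left h7 (by positivity)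
          _ ≤ 4 * 2.7183 * (5 + 4 * (l + 1.1)) := by nlinarith
      have h7 : 125 * l ≤ l ^ 4 := by
        have h8 : (5 : ℝ) ^ 3 ≤ l ^ 3 := pow_le_pow_left₀ (by norm_num) hl5 3
        calc 125 * l = 5 ^ 3 * l := by norm_num
          _ ≤ l ^ 3 * l := mul_le_mul_of_nonneg_right h8 hl.le
          _ = l ^ 4 := by ring
      linarith
  -- the other numbers
  set M := x / (y + 1) with hM
  have hMx : (M : ℝ) ≤ x / yv L l := by
    have e1 : (M : ℝ) ≤ (x : ℝ) / ((y + 1 : ℕ) : ℝ) := Nat.cast_div_le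
    refine e1.trans ?_
    push_cast
    exact div_le_div_of_nonneg_left hx0.le hyv0 hylt.le
  have h3 : ∀ u ∈ Icc 1 M, ((RW x y k u).card : ℝ) ≤
      (if u ≤ 2 then C2 * x * l ^ 20 / L ^ 2 else 0) + 3 * L
      + C * x * l ^ 39 / L ^ 3 * (1 / (u : ℝ)) := by
    intro u hu
    rw [mem_Icc] at hu
    have hu0 : (0 : ℝ) < u := by exact_mod_cast hu.1
    have hux : u * (y + 1) ≤ x := by
      calc u * (y + 1) ≤ M * (y + 1) := Nat.mul_le_mul_right _ hu.2
        _ ≤ x := Nat.div_mul_le_self _ _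
    have e2 : 0 ≤ C * x * l ^ 39 / L ^ 3 * (1 / (u : ℝ)) := by positivity
    have e0 : 0 ≤ (if u ≤ 2 then C2 * x * l ^ 20 / L ^ 2 else 0) := by
      split_ifs
      · positivity
      · exact le_rfl
    by_cases hku : k * u ≤ 2
    · have hu2 : u ≤ 2 := (Nat.le_mul_of_pos_left u hk1).trans hku
      have e1 := hC2 x L l hr y k u hk1 hu.1 hku hy2
      rw [if_pos hu2]
      linarith
    · have e1 := card_RW C hC0 hC x L l hr k u hk1 hk hu.1 (by omega) hux
      rw [← hy] at e1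
      have e3 : ((k * u).primeFactors.card : ℝ) ≤ 3 * L := by
        have e4 : 2 ^ (k * u).primeFactors.card ≤ x ^ 2 := by
          refine (two_pow_card_le (by omega)).trans ?_
          have e5 : u ≤ x := by
            have : u ≤ u * (y + 1) := Nat.le_mul_of_pos_right u (by omega)
            omega
          calc k * u ≤ x * x := Nat.mul_le_mul hk e5
            _ = x ^ 2 := by ring
        have e5 : (2 : ℝ) ^ (k * u).primeFactors.card ≤ (x : ℝ) ^ 2 := by exact_mod_cast e4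
        have e6 := Real.log_le_log (by positivity) e5
        rw [Real.log_pow, Real.log_pow, ← hr.hL] at e6
        push_cast at e6
        have e7 := Pool.Agent.TSP.Big.log_two_gt
        by_contra hcon
        push Not at hcon
        have e8 : 3 * L * 0.69 < ((k * u).primeFactors.card : ℝ) * Real.log 2 :=
          mul_lt_mul'' hcon e7 (by positivity) (by norm_num)
        linarith
      have e7 : C * (x / u) * l ^ 39 / L ^ 3 = C * x * l ^ 39 / L ^ 3 * (1 / (u : ℝ)) := by ring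
      linarith
  have h4 : ((∑ u ∈ Icc 1 M, (RW x y k u).card : ℕ) : ℝ) ≤
      2 * (C2 * x * l ^ 20 / L ^ 2) + x / L ^ 2 + 2 * C * x * l ^ 39 / L ^ 2 := by
    push_cast
    refine (Finset.sum_le_sum h3).trans ?_
    rw [Finset.sum_add_distrib, Finset.sum_add_distrib]
    have e9 : ∑ u ∈ Icc 1 M, C * x * l ^ 39 / L ^ 3 * (1 / (u : ℝ))
        = C * x * l ^ 39 / L ^ 3 * ∑ u ∈ Icc 1 M, 1 / (u : ℝ) := (Finset.mul_sum _ _ _).symm
    rw [e9]
    have e1 : ∑ u ∈ Icc 1 M, (if u ≤ 2 then C2 * (x : ℝ) * l ^ 20 / L ^ 2 else 0) ≤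
        2 * (C2 * x * l ^ 20 / L ^ 2) := by
      rw [← Finset.sum_filter, Finset.sum_const, nsmul_eq_mul]
      have e2 : ((Icc 1 M).filter fun u => u ≤ 2).card ≤ 2 := by
        have : (Icc 1 M).filter (fun u => u ≤ 2) ⊆ Icc 1 2 := by
          intro u hu
          rw [mem_filter, mem_Icc] at hu
          rw [mem_Icc]
          exact ⟨hu.1.1, hu.2⟩
        have h5 := Finset.card_le_card this
        simpa using h5
      have e3 : (((Icc 1 M).filter fun u => u ≤ 2).card : ℝ) ≤ 2 := by exact_mod_cast e2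
      exact mul_le_mul_of_nonneg_right e3 (by positivity)
    have e4 : ∑ u ∈ Icc 1 M, 3 * L ≤ x / L ^ 2 := by
      rw [Finset.sum_const, Nat.card_Icc, Nat.add_sub_cancel, nsmul_eq_mul]
      calc (M : ℝ) * (3 * L) ≤ x / yv L l * (3 * L) :=
            mul_le_mul_of_nonneg_right hMx (by positivity)
        _ ≤ x / L ^ 4 * (3 * L) := by
            apply mul_le_mul_of_nonneg_right _ (by positivity)
            exact div_le_div_of_nonneg_left hx0.le (by positivity) hL4
        _ = x / L ^ 2 * (3 / L) := by field_simp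
        _ ≤ x / L ^ 2 * 1 := by
            apply mul_le_mul_of_nonneg_left _ (by positivity)
            rw [div_le_one hL]
            have := hr.Lge
            norm_num at this
            linarith
        _ = x / L ^ 2 := by ring
    have e5 : ∑ u ∈ Icc 1 M, 1 / (u : ℝ) ≤ 2 * L := by
      have e6 : ∑ u ∈ Icc 1 M, 1 / (u : ℝ) ≤ ∑ u ∈ Icc 1 x, 1 / (u : ℝ) :=
        Finset.sum_le_sum_of_subset_of_nonneg
          (Finset.Icc_subset_Icc_right (Nat.div_le_self _ _)) (fun _ _ _ => by positivity)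
      have e7 : ∑ u ∈ Icc 1 x, 1 / (u : ℝ) ≤ 1 + Real.log x := by
        rw [← harmonic_eq_sum_Icc_real]
        exact harmonic_le_one_add_log _
      rw [← hr.hL] at e7
      have := hB.Lge
      linarith
    have e8 : C * x * l ^ 39 / L ^ 3 * ∑ u ∈ Icc 1 M, 1 / (u : ℝ) ≤ 2 * C * x * l ^ 39 / L ^ 2 := by
      calc C * x * l ^ 39 / L ^ 3 * ∑ u ∈ Icc 1 M, 1 / (u : ℝ)
          ≤ C * x * l ^ 39 / L ^ 3 * (2 * L) := mul_le_mul_of_nonneg_left e5 (by positivity)
        _ = 2 * C * x * l ^ 39 / L ^ 2 := by field_simp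
    linarith
  have h5 : ((TW x k).card : ℝ) ≤
      (((TW x k).filter fun m => ∀ p, p.Prime → p ∣ m → p ≤ y).card : ℝ)
      + ((∑ u ∈ Icc 1 M, (RW x y k u).card : ℕ) : ℝ) := by exact_mod_cast h1
  have h6 : (2 + 2 * C2 + 2 * C) * x * l ^ 39 / L ^ 2
      = 2 * (x / L ^ 2) * l ^ 39 + 2 * C2 * (x / L ^ 2) * l ^ 39 + 2 * C * x * l ^ 39 / L ^ 2 := by
    ring
  have h7 : 2 * (x / L ^ 2) ≤ 2 * (x / L ^ 2) * l ^ 39 :=
    le_mul_of_one_le_right (by positivity) hl39
  have h8 : 2 * (C2 * x * l ^ 20 / L ^ 2) ≤ 2 * C2 * (x / L ^ 2) * l ^ 39 := by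
    have h9 : 2 * (C2 * x * l ^ 20 / L ^ 2) = 2 * C2 * (x / L ^ 2) * l ^ 20 := by ring
    rw [h9]
    exact mul_le_mul_of_nonneg_left hl2039 (by positivity)
  rw [h6]
  linarith

/-- the count for all `x ≥ 16` -/
theorem TW_bound' : ∃ C : ℝ, 0 < C ∧ ∀ x k : ℕ, 16 ≤ x → 1 ≤ k → k ≤ x →
    ((TW x k).card : ℝ) ≤ C * x * Real.log (Real.log x) ^ 39 / Real.log x ^ 2 := by
  obtain ⟨C, hC0, hC⟩ := TW_bound
  obtain ⟨n0, hn0⟩ := p_REG 0
  set D : ℝ := Real.log (n0 + 16 : ℕ) with hD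
  refine ⟨C + D ^ 2, by positivity, ?_⟩
  intro x k hx hk1 hk
  obtain ⟨h1, h2⟩ := log_log_ge hx
  have hx0 : (0 : ℝ) ≤ x := Nat.cast_nonneg _
  have h39 : 1 ≤ Real.log (Real.log x) ^ 39 := one_le_pow₀ h2
  have hlog : 0 < Real.log x := by linarith
  have e1 : (C + D ^ 2) * x * Real.log (Real.log x) ^ 39 / Real.log x ^ 2 =
      C * x * Real.log (Real.log x) ^ 39 / Real.log x ^ 2
      + D ^ 2 * x * Real.log (Real.log x) ^ 39 / Real.log x ^ 2 := by ring
  rw [e1]
  by_cases hcase : n0 ≤ x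
  · have h3 := hC x _ _ (hn0 x hcase).1 k hk1 hk
    have h4 : 0 ≤ D ^ 2 * x * Real.log (Real.log x) ^ 39 / Real.log x ^ 2 := by positivity
    linarith
  · have h3 : ((TW x k).card : ℝ) ≤ x := by
      have : (TW x k).card ≤ x := by
        refine (Finset.card_filter_le _ _).trans ?_
        rw [Nat.card_Icc, Nat.add_sub_cancel]
      exact_mod_cast this
    have h4 : (x : ℝ) ≤ D ^ 2 * x * Real.log (Real.log x) ^ 39 / Real.log x ^ 2 := by
      rw [le_div_iff₀ (by positivity)]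
      have e3 : Real.log x ≤ D := by
        rw [hD]
        apply Real.log_le_log (by exact_mod_cast (by omega : 0 < x))
        exact_mod_cast (by omega : x ≤ n0 + 16)
      have e2 : Real.log x ^ 2 ≤ D ^ 2 := pow_le_pow_left₀ hlog.le e3 2
      calc (x : ℝ) * Real.log x ^ 2 ≤ x * D ^ 2 := mul_le_mul_of_nonneg_left e2 hx0
        _ = D ^ 2 * x * 1 := by ring
        _ ≤ D ^ 2 * x * Real.log (Real.log x) ^ 39 :=
          mul_le_mul_of_nonneg_left h39 (by positivity)
    have h5 : 0 ≤ C * x * Real.log (Real.log x) ^ 39 / Real.log x ^ 2 := by positivity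
    linarith

end Pool.Agent.DAQ
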